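import Mathlib

namespace Pool.Agent.Results.MP_a8e883_al.Kneser
open Finset MvPolynomial
open scoped Classical

/-- vertices of the Kneser graph -/
abbrev V (n k : ℕ) := {A : Finset (Fin n) // A.card = k}

/-- the Kneser graph `K(n,k)` -/
def KG (n k : ℕ) : SimpleGraph (V n k) := SimpleGraph.fromRel fun A B => Disjoint A.1 B.1

/-- closed neighbourhood -/
noncomputable def N {W : Type} [Fintype W] (G : SimpleGraph W) (i : W) : Finset W :=
  univ.filter fun j => j = i ∨ G.Adj i j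

/-- closed neighbourhood ideal -/
noncomputable def NI (K : Type) [Field K] {W : Type} [Fintype W] (G : SimpleGraph W) :
    Ideal (MvPolynomial W K) := Ideal.span (Set.range fun i => ∏ j ∈ N G i, X j)

/-- the maximal homogeneous ideal -/
noncomputable def mm (K : Type) [Field K] (W : Type) : Ideal (MvPolynomial W K) :=
  Ideal.span (Set.range X)

section alg
variable {K : Type} [Field K] {W : Type} [Fintype W] (G : SimpleGraph W)

lemma mem_sq (f : MvPolynomial W K) : f ∈ NI K G ^ 2 ↔ ∀ d ∈ f.support, ∃ i j, ∀ u,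
    (if u ∈ N G i then 1 else 0) + (if u ∈ N G j then 1 else 0) ≤ d u := by
  let c : W → W →₀ ℕ := fun i => ∑ j ∈ N G i, Finsupp.single j 1
  have hc : ∀ i u, c i u = if u ∈ N G i then 1 else 0 := fun i u => by
    simp [c, Finsupp.single_apply, Finsupp.finset_sum_apply]
  have hp : ∀ i, ∏ j ∈ N G i, (X j : MvPolynomial W K) = monomial (c i) 1 := fun i =>
    (monomial_sum_one _ _).symm
  have : NI K G ^ 2 = Ideal.span ((fun s => monomial s (1 : K)) '' {s | ∃ i j, c i + c j = s}) := by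
    rw [pow_two, NI, Ideal.span_mul_span']
    congr 1
    ext g
    simp only [hp, Set.mem_mul, Set.mem_range, Set.mem_image, Set.mem_ofPred_eq]
    constructor
    · rintro ⟨_, ⟨i, rfl⟩, _, ⟨j, rfl⟩, rfl⟩
      exact ⟨_, ⟨i, j, rfl⟩, by simp⟩
    · rintro ⟨_, ⟨i, j, rfl⟩, rfl⟩
      exact ⟨_, ⟨i, rfl⟩, _, ⟨j, rfl⟩, by simp⟩
  rw [this, mem_ideal_span_monomial_image]
  refine forall₂_congr fun d _ => ⟨?_, ?_⟩
  · rintro ⟨_, ⟨i, j, rfl⟩, h⟩
    exact ⟨i, j, fun u => by simpa [hc] using h u⟩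
  · rintro ⟨i, j, h⟩
    exact ⟨_, ⟨i, j, rfl⟩, fun u => by simpa [hc] using h u⟩

lemma mem_mm (f : MvPolynomial W K) : f ∈ mm K W ↔ ∀ d ∈ f.support, ∃ i, d i ≠ 0 := by
  rw [mm, ← Set.image_univ, mem_ideal_span_X_image]
  simp

lemma fwd (f : MvPolynomial W K) (h : ∀ a, a ∈ mm K W ↔ a * f ∈ NI K G ^ 2) (v₀ : W) :
    ∃ (S U : Set W), U.Nonempty ∧ (∀ i ∈ U, ∀ u ∈ N G i, u ∈ S) ∧
    (∀ i ∈ U, ∀ j ∈ U, ∃ u ∈ N G i, u ∈ N G j) ∧
    ∀ v ∈ S, ∃ i ∈ U, ∃ j ∈ U, ∀ u ∈ N G i, u ∈ N G j → u = v := by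
  have h1 : ¬ (1 * f ∈ NI K G ^ 2) := fun h1 => by
    have := (mem_mm _).1 ((h 1).2 h1) 0 (by simp)
    simp at this
  rw [one_mul, mem_sq] at h1
  push Not at h1
  obtain ⟨d, hd, h1⟩ := h1
  have h2 : ∀ v, ∃ i j, ∀ u, (if u ∈ N G i then 1 else 0) + (if u ∈ N G j then 1 else 0) ≤
      (if v = u then 1 else 0) + d u := fun v => by
    obtain ⟨i, j, hij⟩ := (mem_sq G _).1 ((h (X v)).1 (Ideal.subset_span ⟨v, rfl⟩))
      (Finsupp.single v 1 + d) (by rw [mem_support_iff, coeff_X_mul]; exact mem_support_iff.1 hd)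
    refine ⟨i, j, fun u => ?_⟩
    have := hij u
    rwa [Finsupp.add_apply, Finsupp.single_apply] at this
  have le1 : ∀ v, d v ≤ 1 := fun v => by
    obtain ⟨i, j, hij⟩ := h2 v
    obtain ⟨u, hu⟩ := h1 i j
    have := hij u
    by_cases e : v = u
    · subst e
      split_ifs at hu <;> omega
    · rw [if_neg e] at this
      omega
  have h3 : ∀ v i j, (∀ u, (if u ∈ N G i then 1 else 0) + (if u ∈ N G j then 1 else 0) ≤
      (if v = u then 1 else 0) + d u) → (d v ≠ 0 ∨ v ∉ N G i) → ∀ u ∈ N G i, d u ≠ 0 := by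
    intro v i j hij hv u hu
    have := hij u
    by_cases e : v = u
    · subst e
      exact hv.resolve_right (fun h => h hu)
    · rw [if_neg e, if_pos hu] at this
      omega
  refine ⟨{u | d u ≠ 0}, {i | ∀ u ∈ N G i, d u ≠ 0}, ?_, fun i hi => hi, fun i hi j hj => ?_,
    fun v hv => ?_⟩
  · obtain ⟨i, j, hij⟩ := h2 v₀
    by_cases a : d v₀ ≠ 0 ∨ v₀ ∉ N G i
    · exact ⟨i, h3 _ i j hij a⟩
    · refine ⟨j, h3 v₀ j i (fun u => add_comm (if u ∈ N G i then 1 else 0) _ ▸ hij u) (Or.inr fun b => ?_)⟩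
      push Not at a
      have := hij v₀
      simp [a.1, a.2, b] at this
  · obtain ⟨u, hu⟩ := h1 i j
    have a := hi u
    have b := hj u
    refine ⟨u, ?_⟩
    split_ifs at hu with c e e
    · exact ⟨c, e⟩
    · have := a c; omega
    · have := b e; omega
    · omega
  · obtain ⟨i, j, hij⟩ := h2 v
    refine ⟨i, h3 _ i j hij (Or.inl hv), j, h3 v j i
      (fun u => add_comm (if u ∈ N G i then 1 else 0) _ ▸ hij u) (Or.inl hv), fun u a b => ?_⟩
    have := hij u
    have := le1 u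
    by_contra e
    simp [a, b, Ne.symm e] at *
    omega

lemma bwd (h1 : ∀ i j, ∃ u ∈ N G i, u ∈ N G j) (h2 : ∀ v, ∃ i j, ∀ u ∈ N G i, u ∈ N G j → u = v) :
    ∃ f : MvPolynomial W K, ∀ a, a ∈ mm K W ↔ a * f ∈ NI K G ^ 2 := by
  let o : W →₀ ℕ := Finsupp.equivFunOnFinite.symm fun _ => 1
  refine ⟨monomial o 1, fun a => ?_⟩
  rw [mem_mm, mem_sq]
  constructor
  · intro h d hd
    rw [mem_support_iff, coeff_mul_monomial'] at hd
    have le : o ≤ d := by by_contra hn; simp [hn] at hd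
    obtain ⟨v, hv⟩ := h (d - o) (by rw [mem_support_iff]; simpa [le] using hd)
    obtain ⟨i, j, hij⟩ := h2 v
    refine ⟨i, j, fun u => ?_⟩
    have a1 : 1 ≤ d u := le u
    have a2 : d v - 1 ≠ 0 := hv
    split_ifs with a b <;> try omega
    rw [hij u a b]; omega
  · intro h d hd
    obtain ⟨i, j, hij⟩ := h (d + o) (by
      rw [mem_support_iff, coeff_mul_monomial, mul_one]; exact mem_support_iff.1 hd)
    obtain ⟨u, a, b⟩ := h1 i j
    have := hij u
    refine ⟨u, ?_⟩
    have a1 : (d + o) u = d u + 1 := rfl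
    simp only [a, b, if_true, a1] at this
    omega
end alg

variable {n k : ℕ}

lemma memN (hk : 1 ≤ k) (A B : V n k) : B ∈ N (KG n k) A ↔ B = A ∨ Disjoint A.1 B.1 := by
  simp only [N, KG, mem_filter, mem_univ, true_and, SimpleGraph.fromRel_adj]
  refine or_congr_right' fun h => ⟨fun h => h.2.elim id fun h => h.symm, fun h' => ⟨Ne.symm h, Or.inl h'⟩⟩

lemma nd (hk : 1 ≤ k) (A : V n k) : ¬ Disjoint A.1 A.1 := fun h => by
  have := A.2
  rw [disjoint_self.1 h] at this
  simp at this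
  omega

lemma sub (s : Finset (Fin n)) (h : k ≤ #s) : ∃ A : V n k, A.1 ⊆ s := by
  obtain ⟨t, a, b⟩ := exists_subset_card_eq h
  exact ⟨⟨t, b⟩, a⟩

lemma uniq (hk : 1 ≤ k) (hn : 2 * k ≤ n) (C D v : V n k) (h0 : ∃ u ∈ N (KG n k) C, u ∈ N (KG n k) D)
    (h : ∀ u ∈ N (KG n k) C, u ∈ N (KG n k) D → u = v) :
    C ≠ D ∧ ¬ Disjoint C.1 D.1 ∧ (C.1 ∪ D.1)ᶜ = v.1 := by
  simp only [memN hk] at h h0
  have ne : C ≠ D := by
    rintro rfl
    obtain ⟨B, hB⟩ := sub (k := k) C.1ᶜ (by rw [card_compl, C.2]; simp; omega)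
    have d : Disjoint C.1 B.1 := (subset_compl_iff_disjoint_left.1 hB)
    have := (h C (Or.inl rfl) (Or.inl rfl)).trans (h B (Or.inr d) (Or.inr d)).symm
    exact nd hk C (by rwa [← this] at d)
  have nd' : ¬ Disjoint C.1 D.1 := fun d =>
    ne ((h C (Or.inl rfl) (Or.inr d.symm)).trans (h D (Or.inr d) (Or.inl rfl)).symm)
  refine ⟨ne, nd', ?_⟩
  have hs : v.1 ⊆ (C.1 ∪ D.1)ᶜ := by
    obtain ⟨u, a, b⟩ := h0
    obtain rfl := h u a b
    rw [subset_compl_iff_disjoint_left, disjoint_union_left]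
    rcases a with rfl | a
    · exact absurd (b.resolve_left ne).symm nd'
    rcases b with rfl | b
    · exact absurd a nd'
    exact ⟨a, b⟩
  refine Subset.antisymm (fun x hx => ?_) hs
  obtain ⟨t, t1, t2, t3⟩ := exists_subsuperset_card_eq (singleton_subset_iff.2 hx)
    (by simpa using hk) (v.2 ▸ card_le_card hs)
  rw [subset_compl_iff_disjoint_left, disjoint_union_left] at t2
  rw [← h ⟨t, t3⟩ (Or.inr t2.1) (Or.inr t2.2)]
  exact t1 (mem_singleton_self _)

lemma cards (C D : V n k) : #(C.1 ∪ D.1)ᶜ + 2 * k = n + #(C.1 ∩ D.1) := by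
  have := card_union_add_card_inter C.1 D.1
  have := card_le_univ (C.1 ∪ D.1)
  rw [card_compl]
  have := C.2
  have := D.2
  simp only [Fintype.card_fin] at *
  omega

theorem result (K : Type) [Field K] (n k : ℕ) (hk : 1 ≤ k) (hn : 2 * k ≤ n) :
    (∃ f, ∀ a, a ∈ mm K (V n k) ↔ a * f ∈ NI K (KG n k) ^ 2) ↔ 2 ≤ k ∧ n = 3 * k - 1 := by
  constructor
  · rintro ⟨f, hf⟩
    obtain ⟨v₀, -⟩ := sub (k := k) (univ : Finset (Fin n)) (by simp; omega)
    obtain ⟨S, U, ⟨A, hA⟩, h1, h2, h3⟩ := fwd _ f hf v₀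
    obtain ⟨E, hE, F, hF, h⟩ := h3 A (h1 A hA A ((memN hk _ _).2 (Or.inl rfl)))
    obtain ⟨e1, e2, e3⟩ := uniq hk hn E F A (h2 E hE F hF) h
    have c1 := cards E F
    rw [e3, A.2] at c1
    have c2 : 0 < #(E.1 ∩ F.1) := card_pos.2 (not_disjoint_iff_nonempty_inter.1 e2)
    have c3 : #(E.1 ∩ F.1) < k := by
      refine lt_of_le_of_ne ((card_le_card inter_subset_left).trans E.2.le) fun hh => e1 (Subtype.ext ?_)
      have a := eq_of_subset_of_card_le (inter_subset_left (s₁ := E.1) (s₂ := F.1)) (by rw [E.2, hh])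
      have b := eq_of_subset_of_card_le (inter_subset_right (s₁ := E.1) (s₂ := F.1)) (by rw [F.2, hh])
      exact a.symm.trans b
    refine ⟨by omega, by_contra fun hne => ?_⟩
    obtain ⟨e, he⟩ : E.1.Nonempty := card_pos.1 (by rw [E.2]; omega)
    obtain ⟨x, hx⟩ : (F.1 \ E.1).Nonempty := card_pos.1 (by
      have := card_sdiff_add_card_inter F.1 E.1
      rw [inter_comm, F.2] at this
      omega)
    rw [mem_sdiff] at hx
    have hv : #(insert x (E.1.erase e)) = k := by
      rw [card_insert_of_notMem (fun h => hx.2 (mem_of_mem_erase h)), card_erase_of_mem he, E.2]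
      omega
    have dj : Disjoint A.1 (insert x (E.1.erase e)) := by
      rw [← e3]
      refine disjoint_compl_left_iff.2 (insert_subset (mem_union_right _ hx.1)
        ((erase_subset _ _).trans subset_union_left))
    obtain ⟨C, hC, D, hD, h'⟩ := h3 ⟨_, hv⟩ (h1 A hA _ ((memN hk _ _).2 (Or.inr dj)))
    have e4 := (uniq hk hn C D _ (h2 C hC D hD) h').2.2
    have fin : ∀ C : V n k, C ∈ U → e ∈ C.1 → Disjoint C.1 (insert x (E.1.erase e)) → False := by
      intro C hC eC dC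
      have i1 : C.1 ∩ E.1 = {e} := by
        refine Subset.antisymm (fun y hy => ?_) (by simp [eC, he])
        rw [mem_inter] at hy
        by_contra hn
        exact disjoint_left.1 dC hy.1 (mem_insert_of_mem (mem_erase.2 ⟨by simpa using hn, hy.2⟩))
      have c4 := cards C E
      rw [i1, card_singleton] at c4
      obtain ⟨u, a, b⟩ := h2 C hC E hE
      rw [memN hk] at a b
      have ne : C ≠ E := by
        rintro rfl
        rw [inter_self] at i1
        have := C.2
        rw [i1, card_singleton] at this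
        omega
      rcases a with rfl | a
      · exact disjoint_left.1 (b.resolve_left ne) he eC
      rcases b with rfl | b
      · exact disjoint_left.1 a eC he
      have := card_le_card (subset_compl_iff_disjoint_left.2 (disjoint_union_left.2 ⟨a, b⟩))
      rw [u.2] at this
      omega
    have e5 : Disjoint (C.1 ∪ D.1) (insert x (E.1.erase e)) := subset_compl_iff_disjoint_left.1 e4.ge
    have e6 : e ∈ C.1 ∪ D.1 := by
      by_contra hn
      have : e ∈ insert x (E.1.erase e) := e4.le (mem_compl.2 hn)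
      simp only [mem_insert, mem_erase, ne_eq, not_true, false_and, or_false] at this
      exact hx.2 (this ▸ he)
    rw [disjoint_union_left] at e5
    rcases mem_union.1 e6 with h | h
    · exact fin C hC h e5.1
    · exact fin D hD h e5.2
  · rintro ⟨k2, hn⟩
    refine bwd _ (fun A B => ?_) (fun v => ?_)
    · simp only [memN hk]
      by_cases d : Disjoint A.1 B.1
      · exact ⟨A, Or.inl rfl, Or.inr d.symm⟩
      · have := cards A B
        have c2 : 0 < #(A.1 ∩ B.1) := card_pos.2 (not_disjoint_iff_nonempty_inter.1 d)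
        obtain ⟨u, hu⟩ := sub (k := k) (A.1 ∪ B.1)ᶜ (by omega)
        rw [subset_compl_iff_disjoint_left, disjoint_union_left] at hu
        exact ⟨u, Or.inr hu.1, Or.inr hu.2⟩
    · have c0 : #v.1ᶜ = 2 * k - 1 := by rw [card_compl, v.2]; simp; omega
      obtain ⟨A, hA⟩ := sub (k := k) v.1ᶜ (by omega)
      obtain ⟨e, he⟩ : A.1.Nonempty := card_pos.1 (by rw [A.2]; omega)
      have c1 : #(v.1ᶜ \ A.1) = k - 1 := by rw [card_sdiff_of_subset hA, c0, A.2]; omega
      have hB : #(insert e (v.1ᶜ \ A.1)) = k := by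
        rw [card_insert_of_notMem (by simp [he]), c1]; omega
      obtain ⟨x, hx⟩ : (v.1ᶜ \ A.1).Nonempty := card_pos.1 (by omega)
      have ne : A ≠ ⟨_, hB⟩ := fun h => (mem_sdiff.1 hx).2 (by rw [h]; exact mem_insert_of_mem hx)
      refine ⟨A, ⟨_, hB⟩, fun u a b => ?_⟩
      rw [memN hk] at a b
      rcases a with rfl | a
      · exact (disjoint_left.1 (b.resolve_left ne) (mem_insert_self _ _) he).elim
      rcases b with rfl | b
      · exact (disjoint_left.1 a he (mem_insert_self _ _)).elim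
      refine Subtype.ext (eq_of_subset_of_card_le (fun y hy => ?_) (by rw [u.2, v.2]))
      by_contra hn
      exact disjoint_right.1 b hy (mem_insert_of_mem (mem_sdiff.2 ⟨mem_compl.2 hn, disjoint_right.1 a hy⟩))

end Pool.Agent.Results.MP_a8e883_al.Kneser
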